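import Pool.Agent.PLY.T2.H1
import Pool.Agent.PLY.R2.Tb

/-!
Project PLY, folder T2 (two-sided part), module Main: THE CLOSED ESTIMATE. Inputs: the pairs (`TA g ≤ B`), the tail of the giants (`L`), Lemma G below a level
(`mz_le` of PLY/V/Mz, constant `C`), the decoupling (PLZ/RRtn), RET (`Ret3`). Output: the decay per class of `tt`, and `TB` with the constant weight.
-/

namespace Pool.Agent.HEP

open scoped ENNReal
open Finset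

namespace Sys

variable {S : Sys}

lemma U_mul_T2 (n m : ℕ) : S.T2 n m = ∑ g ∈ range (n + 1), ∑ σ : Bool, S.tt σ n g m := by
  unfold T2
  rw [sum_comm]

/-- The hypothesis H2 of the closing lemma. -/
theorem Yf_le {K : ℕ} (hG : S.Gyp K) (R : S.Rts) {KR κ θ θ' t0 X t : ℝ≥0∞}
    (hdec : ∀ τ y M, 1 ≤ y → 2 * y < M → S.U y * ∑' c, ind (R.rt τ M y [c]) * S.wt c ≤ S.R3 τ y M)
    (hRet : S.Ret3 KR κ θ t0) (hθ : θ ≤ θ') (hθ2 : 2⁻¹ ≤ θ') (hθ1 : θ' ≤ 1) (hX : 1 ≤ X) (hXt : X ≠ ⊤) (ht : 1 ≤ t) (ht0 : t ≤ t0)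
    (hTB : S.TB κ X t) {n j : ℕ} (hj : j ≤ n) :
    Yf R n j ≤ (16 * KR + 32) * X ^ 2 * t ^ (2 * n) * θ' ^ (n - j) * (S.U (2 ^ n))⁻¹ := by
  have hU0 : ∀ k, S.U k ≠ 0 := S.U_ne_zero
  have hUt : ∀ k, S.U k ≠ ⊤ := S.U_ne_top
  have h2 : (1 : ℝ≥0∞) ≤ 2 * θ' := by
    calc (1 : ℝ≥0∞) = 2 * 2⁻¹ := (ENNReal.mul_inv_cancel (by norm_num) (by norm_num)).symm
      _ ≤ _ := mul_le_mul' le_rfl hθ2
  have hp : ∀ k, (1 : ℝ≥0∞) ≤ 2 ^ k * θ' ^ k := fun k => by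
    rw [← mul_pow]; exact one_le_pow_of_one_le' h2 k
  have hXX : (1 : ℝ≥0∞) ≤ X ^ 2 := one_le_pow_of_one_le' hX 2
  have htt : (1 : ℝ≥0∞) ≤ t ^ (2 * n) := one_le_pow_of_one_le' ht _
  unfold Yf
  split_ifs with h6
  swap
  · have e1 : (1 : ℝ≥0∞) ≤ 32 * θ' ^ (n - j) := by
      calc (1 : ℝ≥0∞) ≤ 2 ^ 5 * θ' ^ 5 := hp 5
        _ ≤ 32 * θ' ^ (n - j) := mul_le_mul' (by norm_num) (pow_le_pow_right_of_le_one' hθ1 (by omega))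
    calc (S.U (2 ^ n))⁻¹ = 1 * 1 * 1 * (S.U (2 ^ n))⁻¹ := by ring
      _ ≤ (32 * θ' ^ (n - j)) * X ^ 2 * t ^ (2 * n) * (S.U (2 ^ n))⁻¹ := by gcongr
      _ = 32 * X ^ 2 * t ^ (2 * n) * θ' ^ (n - j) * (S.U (2 ^ n))⁻¹ := by ring
      _ ≤ _ := by gcongr; exact le_add_self
  have key : ∀ τ, ∑' c, ind (R.rt τ (2 ^ (n - 1)) (2 ^ (j + 1)) [c]) * S.wt c ≤
      8 * KR * X ^ 2 * t ^ (2 * n) * θ' ^ (n - j) * (S.U (2 ^ n))⁻¹ := by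
    intro τ
    set Z := ∑' c, ind (R.rt τ (2 ^ (n - 1)) (2 ^ (j + 1)) [c]) * S.wt c with hZ
    have a1 : S.U (2 ^ (j + 1)) * Z ≤ S.R3 τ (2 ^ (j + 1)) (2 ^ (n - 1)) := by
      refine hdec τ _ _ Nat.one_le_two_pow ?_
      rw [← pow_succ']
      exact Nat.pow_lt_pow_right (by norm_num) (by omega)
    have a2 := hRet X t hX hXt ht ht0 hTB τ (j + 1) (n - 1) (by omega)
    have a3 : S.U (2 ^ (j + 1)) * (S.U (2 ^ (n - 1)) * Z) ≤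
        S.U (2 ^ (j + 1)) * (KR * X ^ 2 * t ^ (2 * (n - 1)) * θ ^ (n - 1 - (j + 1))) := by
      calc S.U (2 ^ (j + 1)) * (S.U (2 ^ (n - 1)) * Z) = S.U (2 ^ (n - 1)) * (S.U (2 ^ (j + 1)) * Z) := by ring
        _ ≤ S.U (2 ^ (n - 1)) * S.R3 τ (2 ^ (j + 1)) (2 ^ (n - 1)) := mul_le_mul' le_rfl a1
        _ ≤ _ := a2
        _ = _ := by ring
    have a4 := (ENNReal.mul_le_mul_iff_right (hU0 _) (hUt _)).1 a3
    have a5 : S.U (2 ^ n) ≤ 2 * S.U (2 ^ (n - 1)) := by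
      have := U_pow_two hG.anti (n - 1) 1
      rwa [pow_one, Nat.sub_add_cancel (by omega : 1 ≤ n)] at this
    have a6 : θ ^ (n - 1 - (j + 1)) ≤ 4 * θ' ^ (n - j) := by
      calc θ ^ (n - 1 - (j + 1)) ≤ 1 * θ' ^ (n - 1 - (j + 1)) := by rw [one_mul]; gcongr
        _ ≤ (2 ^ 2 * θ' ^ 2) * θ' ^ (n - 1 - (j + 1)) := mul_le_mul' (hp 2) le_rfl
        _ = 4 * θ' ^ (n - j) := by
            rw [mul_assoc, ← pow_add]
            have : 2 + (n - 1 - (j + 1)) = n - j := by omega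
            rw [this]
            norm_num
    have a7 : t ^ (2 * (n - 1)) ≤ t ^ (2 * n) := pow_le_pow_right₀ ht (by omega)
    have a8 : S.U (2 ^ n) * Z ≤ 8 * KR * X ^ 2 * t ^ (2 * n) * θ' ^ (n - j) := by
      calc S.U (2 ^ n) * Z ≤ 2 * S.U (2 ^ (n - 1)) * Z := mul_le_mul' a5 le_rfl
        _ = 2 * (S.U (2 ^ (n - 1)) * Z) := by ring
        _ ≤ 2 * (KR * X ^ 2 * t ^ (2 * (n - 1)) * θ ^ (n - 1 - (j + 1))) := mul_le_mul' le_rfl a4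
        _ ≤ 2 * (KR * X ^ 2 * t ^ (2 * n) * (4 * θ' ^ (n - j))) := by gcongr
        _ = _ := by ring
    calc Z = S.U (2 ^ n) * Z * (S.U (2 ^ n))⁻¹ := by
          rw [mul_comm (S.U (2 ^ n)) Z, mul_assoc, ENNReal.mul_inv_cancel (hU0 _) (hUt _), mul_one]
      _ ≤ _ := mul_le_mul' a8 le_rfl
  unfold yb
  calc ∑ τ : Bool, ∑' c, ind (R.rt τ (2 ^ (n - 1)) (2 ^ (j + 1)) [c]) * S.wt c
      ≤ ∑ _τ : Bool, 8 * KR * X ^ 2 * t ^ (2 * n) * θ' ^ (n - j) * (S.U (2 ^ n))⁻¹ := sum_le_sum fun τ _ => key τ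
    _ = 16 * KR * X ^ 2 * t ^ (2 * n) * θ' ^ (n - j) * (S.U (2 ^ n))⁻¹ := by
        rw [sum_const, card_univ, Fintype.card_bool, nsmul_eq_mul]
        push_cast
        ring
    _ ≤ _ := by gcongr; exact le_self_add

/-- THE CLOSED ESTIMATE. -/
theorem tt_closed {K : ℕ} (hG : S.Gyp K) (R : S.Rts) {B C L KR ρ₁ ρ₂ θ t0 : ℝ≥0∞} (h1 : ρ₁ < 1) (h2 : ρ₂ < 1) (hθ : θ < 1)
    (ht0 : 1 < t0) (ht0t : t0 ≠ ⊤) (hB : B ≠ ⊤) (hC : C ≠ ⊤) (hLt : L ≠ ⊤) (hKR : KR ≠ ⊤)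
    (hdec : ∀ τ y M, 1 ≤ y → 2 * y < M → S.U y * ∑' c, ind (R.rt τ M y [c]) * S.wt c ≤ S.R3 τ y M)
    (hTA : ∀ g, S.TA g ≤ B)
    (hL : ∀ n m, n ≤ m → S.U (2 ^ n) * ∑' c, ind (2 ^ m ≤ S.ht c) * S.wt c ≤ L * ρ₂ ^ (m - n))
    (hmz : ∀ σ i g y k, g ≤ y → y ≤ k → 2 ^ y ≤ i + 1 → S.U (2 ^ y) * S.mz σ i g y k ≤ C * ρ₁ ^ (y - g) * ρ₂ ^ (k - y))
    (hRet : S.Ret3 KR (ρ₂ ^ (3 / 4 : ℝ)) θ t0) :
    ∃ ρ C' : ℝ≥0∞, ρ < 1 ∧ C' ≠ ⊤ ∧ (∀ σ g n m, g ≤ n → n ≤ m → S.U (2 ^ n) * S.tt σ n g m ≤ C' * ρ ^ (m - g)) ∧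
      S.TB (ρ₂ ^ (3 / 4 : ℝ)) C' 1 := by
  have hU0 : ∀ k, S.U k ≠ 0 := S.U_ne_zero
  have hUt : ∀ k, S.U k ≠ ⊤ := S.U_ne_top
  have hinv : ∀ {k : ℕ} {a b : ℝ≥0∞}, S.U k * a ≤ b → a ≤ b * (S.U k)⁻¹ := by
    intro k a b h
    calc a = S.U k * a * (S.U k)⁻¹ := by
          rw [mul_comm (S.U k) a, mul_assoc, ENNReal.mul_inv_cancel (hU0 k) (hUt k), mul_one]
      _ ≤ _ := mul_le_mul' h le_rfl
  have hmul : ∀ {k : ℕ} {a b : ℝ≥0∞}, a ≤ b * (S.U k)⁻¹ → S.U k * a ≤ b := by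
    intro k a b h
    calc S.U k * a ≤ S.U k * (b * (S.U k)⁻¹) := mul_le_mul' le_rfl h
      _ = b * (S.U k * (S.U k)⁻¹) := by ring
      _ = b := by rw [ENNReal.mul_inv_cancel (hU0 k) (hUt k), mul_one]
  set θ' : ℝ≥0∞ := max θ 2⁻¹ with hθ'
  have hθ'1 : θ' < 1 := max_lt hθ (by
    rw [ENNReal.inv_lt_one]; norm_num)
  obtain ⟨ρ, hρ, hρ2, H⟩ := clo4 h1 h2 hθ'1 ht0 ht0t
  set D : ℝ≥0∞ := B * L + B + 2 * C with hD
  have hDt : D ≠ ⊤ := by rw [hD]; finiteness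
  set K1 : ℝ≥0∞ := 6 * D + (16 * KR + 32) with hK1
  have hK1t : K1 ≠ ⊤ := by rw [hK1]; finiteness
  have hBL : 2 * (B * L) ≤ K1 := by
    calc 2 * (B * L) ≤ 6 * D := mul_le_mul' (by norm_num) (by rw [hD, add_assoc]; exact le_self_add)
      _ ≤ _ := le_self_add
  set M : ℕ → ℕ → ℕ → ℝ≥0∞ := fun g n m => ∑ σ : Bool, S.tt σ n g m with hM
  set u : ℕ → ℝ≥0∞ := fun n => (S.U (2 ^ n))⁻¹ with hu
  have H0 : ∀ g n m, g ≤ n → n ≤ m → M g n m ≤ K1 * ρ₂ ^ (m - n) * u n := by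
    intro g n m hgn hnm
    calc M g n m ≤ ∑ _σ : Bool, B * (L * ρ₂ ^ (m - n) * u n) :=
          sum_le_sum fun σ _ => (tt_le hG σ hgn m).trans (mul_le_mul' (hTA g) (hinv (hL n m hnm)))
      _ = 2 * (B * L) * ρ₂ ^ (m - n) * u n := by
          rw [sum_const, card_univ, Fintype.card_bool, nsmul_eq_mul]
          push_cast
          ring
      _ ≤ _ := by gcongr
  have H1 : ∀ g n m, g ≤ n → n ≤ m → M g n m ≤ K1 * ∑ j ∈ range (n + 1),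
      min (ρ₂ ^ (m - n) * u n) (min (ρ₁ ^ (j - g) * 2 ^ (n - j) * u n) (Yf R n j)) := by
    intro g n m hgn hnm
    calc M g n m ≤ ∑ _σ : Bool, 3 * D * ∑ j ∈ range (n + 1),
          min (ρ₂ ^ (m - n) * u n) (min (ρ₁ ^ (j - g) * 2 ^ (n - j) * u n) (Yf R n j)) :=
          sum_le_sum fun σ _ => tt_H1 hG R h2.le h1.le hTA hL hmz σ hgn hnm
      _ = 6 * D * ∑ j ∈ range (n + 1),
          min (ρ₂ ^ (m - n) * u n) (min (ρ₁ ^ (j - g) * 2 ^ (n - j) * u n) (Yf R n j)) := by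
          rw [sum_const, card_univ, Fintype.card_bool, nsmul_eq_mul]
          push_cast
          ring
      _ ≤ _ := by gcongr; exact le_self_add
  obtain ⟨C1, hC1, hC1'⟩ := H K1 u M (Yf R) hK1t (fun n => ENNReal.inv_ne_top.2 (hU0 _)) H0 H1 (by
    intro X t hX hXt ht ht' hTB n j hj
    have hTB' : S.TB (ρ₂ ^ (3 / 4 : ℝ)) X t := by
      intro n m hnm
      rw [U_mul_T2]
      exact hmul (hTB n m hnm)
    refine (Yf_le hG R hdec hRet (le_max_left _ _) (le_max_right _ _) hθ'1.le hX hXt ht ht' hTB' hj).trans ?_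
    gcongr
    exact le_add_self)
  set C2 : ℝ≥0∞ := max C1 1 with hC2
  have hC2t : C2 ≠ ⊤ := (max_lt hC1.lt_top ENNReal.one_lt_top).ne
  set K2 : ℝ≥0∞ := K1 ^ (3 / 4 : ℝ) * (1 - ρ ^ (1 / 4 : ℝ))⁻¹ with hK2
  have hK2t : K2 ≠ ⊤ := tb_const hρ hK1t
  refine ⟨ρ, C1 + K2 * C2, hρ, by finiteness, ?_, ?_⟩
  · intro σ g n m hgn hnm
    refine hmul ((single_le_sum (f := fun σ : Bool => S.tt σ n g m) (fun _ _ => zero_le) (mem_univ σ)).trans ?_)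
    refine (hC1' g n m hgn hnm).trans ?_
    gcongr
    exact le_self_add
  · intro n m hnm
    rw [U_mul_T2]
    have h3 := tb_of_mg (M := fun g => M g n m) (X := C2) (t := 1) (u := u n) (K := K1) (ρ₂ := ρ₂) (le_max_right _ _) le_rfl hnm hρ
      (fun g hg => H0 g n m hg hnm) (fun g hg => by
        refine (hC1' g n m hg hnm).trans ?_
        rw [one_pow, mul_one]
        gcongr
        exact le_max_left _ _)
    refine hmul (h3.trans ?_)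
    calc _ = K2 * C2 * 1 ^ n * (ρ₂ ^ (3 / 4 : ℝ)) ^ (m - n) * u n := by rw [hK2]; ring
      _ ≤ _ := by
          gcongr
          exact le_add_self

end Sys

end Pool.Agent.HEP
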