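import Pool.Agent.PLY.Ch.Defs
import Pool.Agent.PLY.V.Defs
import Pool.Agent.PLZ.Rdef

/-!
Project PLY (MP_8c6f77_pr, honeycomb lattice, polynomial bound), THE TWO-SIDED PART (route A: notes 3092, 3094, 3095, 3098, 3108), from one side to two
sides, decoupling, closing; architect helper71: DEFINITIONS AND CONTRACTS (version 2: giants of height `≥` zone only in the return estimate, helper49;
returns = `Sys.Rts` of PLZ/Rdef, helper46).

THE PROBLEM. For an avoiding pair of legs the SHORTER leg is one-sided at every renewal of the LONGER one (`Gyp.pl1`, `Gyp.pl2`), but a giant block of the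
longer leg may pass over the top of the shorter leg and come back on the other side of it. So Lemma G (`Hit`) does not apply directly to a giant of the
longer leg. Let `Y` = lowest column which the giant visits after its first visit of the level `2 ^ n`. Below `Y` it is one-sided (`Rts.os`), so Lemma G applies
with the zone `Y` (PLY/V/Mz, helper27); and a low `Y` is a rare event, by the return estimate RET (`Ret3`, helper39), whose proof uses the bounds of the avoiding
pairs themselves (PLY/S, helper40), with a constant `X`. The inequality is sublinear in `X` and closes (PLY/R2/Clo3, helper62).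

* `σ` = side of the free leg `l` (`true` = leg 1), `τ = !σ` = side of the leg `s ++ [c]` with the giant `c`.
* `tt σ n r m`: mass of the avoiding pairs: `l` up to its first renewal `≥ 2 ^ n`; `s` of class `r` (`Nat.size (h s) = r`), `l` one-sided at every prefix
  of `s`; block `c` of height `≥ 2 ^ m`. (No condition for `c` except that `l` and `s ++ [c]` avoid each other.) `T2 n m` = both sides, `r ≤ n` (that is `h s < 2 ^ n`).
* `TB κ X t`: `U (2 ^ n) * T2 n m ≤ X t ^ n κ ^ (m - n)` for all `n ≤ m`. (`κ` = a rate which depends only on the rates of `Hit` and `Rho`.)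
* `R3 τ y M`: mass of the triples `p1, p2, p3` of `Cut3` (`τ` = side of the returning leg; fold `a`: legs `p2`, `p1.reverse`; fold `b`: legs `p3`, `p2.reverse`), `M ≤ h p1`,
  `h p2 ≤ h p1 ≤ h p2 + 2 y + 1`, `p3` in first passage over `h p2` or over `h p2 + 1` (total mass at most 2). `p2` is the SHORTER leg at both folds, so every part
  of it is one-sided at the renewals of `p1.reverse` (by `pl2`, `pl1` and `h p2 + d (!τ) ≤ h p1`) and of `p3` (`h p2 + d τ ≤ h p3`).
* `Ret3 K κ θ t0`: RET: `TB κ X t`, `1 ≤ t ≤ t0` implies `U (2 ^ n) R3 (2 ^ j) (2 ^ n) ≤ K X ^ 2 t ^ (2 n) θ ^ (n - j) U (2 ^ j)` for `j + 4 ≤ n`; the numbers `K κ θ t0` do not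
  depend on `X`, `t`.
* `yb R n j`: mass of the blocks which return from a column `≥ 2 ^ (n - 1)` to a column `≤ 2 ^ (j + 1)` (both sides). DECOUPLING (PLZ/RRtn, helper46):
  `U y * ∑' c, ind (R.rt τ M y [c]) * wt c ≤ R3 τ y M` for `2 * y < M`.
-/

namespace Pool.Agent.HEP

open scoped ENNReal

namespace Sys

variable (S : Sys)

/-- The free leg `l` (side `σ`) up to its first renewal `≥ 2 ^ n`, the near part `s` of class `r`, the giant `c` of height `≥ 2 ^ m`. -/
noncomputable def tt (σ : Bool) (n r m : ℕ) : ℝ≥0∞ :=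
  ∑' l, ∑' s, ∑' c, ind (S.av σ l (s ++ [c]) ∧ (∀ s' u, s = s' ++ u → S.os σ 1 l s') ∧ Nat.size (S.h s) = r ∧
    2 ^ m ≤ S.ht c) * (S.rg (2 ^ n - 1) l * (S.w s * S.wt c))

/-- Both sides, all the classes. -/
noncomputable def T2 (n m : ℕ) : ℝ≥0∞ := ∑ σ : Bool, ∑ r ∈ Finset.range (n + 1), S.tt σ n r m

/-- The bound of `T2` with constant `X` and weight `t ^ n`. -/
def TB (κ X t : ℝ≥0∞) : Prop := ∀ n m, n ≤ m → S.U (2 ^ n) * S.T2 n m ≤ X * t ^ n * κ ^ (m - n)

/-- Mass of the triples of a return, returning leg of the side `τ`. -/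
noncomputable def R3 (τ : Bool) (y M : ℕ) : ℝ≥0∞ :=
  ∑' p1, ∑' p2, ∑' p3, ind (S.av τ p2 p1.reverse ∧ S.av τ p3 p2.reverse ∧ M ≤ S.h p1 ∧ S.h p1 ≤ S.h p2 + 2 * y + 1 ∧
    S.h p2 + d (!τ) ≤ S.h p1 ∧ S.h p2 + d τ ≤ S.h p3 ∧ (S.FP (S.h p2) p3 ∨ S.FP (S.h p2 + 1) p3)) *
    (S.w p1 * (S.w p2 * S.w p3))

/-- RET, the return estimate. -/
def Ret3 (K κ θ t0 : ℝ≥0∞) : Prop := ∀ X t : ℝ≥0∞, 1 ≤ X → X ≠ ⊤ → 1 ≤ t → t ≤ t0 → S.TB κ X t →
  ∀ τ j n, j + 4 ≤ n →
    S.U (2 ^ n) * S.R3 τ (2 ^ j) (2 ^ n) ≤ K * X ^ 2 * t ^ (2 * n) * θ ^ (n - j) * S.U (2 ^ j)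

variable {S}

/-- Mass of the blocks which return from a column `≥ 2 ^ (n - 1)` to a column `≤ 2 ^ (j + 1)`. -/
noncomputable def yb (R : S.Rts) (n j : ℕ) : ℝ≥0∞ :=
  ∑ τ : Bool, ∑' c, ind (R.rt τ (2 ^ (n - 1)) (2 ^ (j + 1)) [c]) * S.wt c

end Sys

end Pool.Agent.HEP
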