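import Pool.Agent.PLY.R2.Clo3

/-!
Project PLY (MP_8c6f77_pr, honeycomb lattice, polynomial bound), THE TWO-SIDED PART (folder T2, architect helper71): THE CLOSING LEMMA, pure analysis.

`T n m` = `U (2 ^ n) * T2 n m`. Cells `(r, j)`, `r ≤ j ≤ n`: class of the short leg and zone. Interpolation `min 1 a b ≤ a ^ β * b ^ (1/4)` with
`s ^ β * th ^ (1/4) < 1`; one turn `(X, t') → (C X ^ (1/2), t' ^ (1/2))`; start `(K Z, t)` from the trivial bound `K (n + 1)`.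
-/

namespace Pool.Agent.HEP

open scoped ENNReal Topology
open Finset Filter

lemma cloT_exp {s th : ℝ≥0∞} (hs : s ≠ ⊤) (hth : th < 1) :
    ∃ b : ℝ, 0 < b ∧ b ≤ 1 / 4 ∧ (max 1 s) ^ b * th ^ (1 / 4 : ℝ) < 1 := by
  have h1 : th ^ (1 / 4 : ℝ) < 1 := ENNReal.rpow_lt_one hth (by norm_num)
  have h2 := clo_lim (Z := max 1 s) (le_max_left _ _) (max_lt ENNReal.one_lt_top hs.lt_top).ne
  have h3 := ENNReal.Tendsto.mul_const (b := th ^ (1 / 4 : ℝ)) h2 (Or.inl one_ne_zero)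
  rw [one_mul] at h3
  have h4 := (h3.eventually (gt_mem_nhds h1)).and (eventually_ge_atTop 2)
  obtain ⟨n, hn, hn1⟩ := h4.exists
  refine ⟨(1 / 2 : ℝ) ^ n, by positivity, ?_, hn⟩
  calc (1 / 2 : ℝ) ^ n ≤ (1 / 2 : ℝ) ^ 2 := pow_le_pow_of_le_one (by norm_num) (by norm_num) hn1
    _ ≤ 1 / 4 := by norm_num

/-- Interpolation. -/
lemma cloT_min {b : ℝ} (hb : 0 ≤ b) (hb' : b ≤ 1 / 4) (p q : ℝ≥0∞) :
    min (min 1 p) q ≤ p ^ b * q ^ (1 / 4 : ℝ) := by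
  have h := clo3_min hb hb' (le_refl (1 : ℝ≥0∞)) 1 p q
  rw [mul_one, mul_one, mul_one, mul_one, ENNReal.one_rpow, one_mul, ← min_assoc] at h
  exact h

/-- THE CLOSING LEMMA of the folder T2. -/
theorem cloT {rho s th K t : ℝ≥0∞} (hrho : rho < 1) (hs : s ≠ ⊤) (hth : th < 1) (hK : K ≠ ⊤) (ht : 1 < t) :
    ∃ C : ℝ≥0∞, C ≠ ⊤ ∧ ∀ (kap : ℝ≥0∞) (T : ℕ → ℕ → ℝ≥0∞),
      (∀ n m, n ≤ m → T n m ≤ K * (n + 1) * kap ^ (m - n)) →
      (∀ X t' : ℝ≥0∞, 1 ≤ X → X ≠ ⊤ → 1 < t' → t' ≤ t → (∀ n m, n ≤ m → T n m ≤ X * t' ^ n * kap ^ (m - n)) →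
        ∀ n m, n ≤ m → T n m ≤ K * kap ^ (m - n) * (1 + ∑ r ∈ Finset.range (n + 1), ∑ j ∈ Finset.Icc r n,
          min (min 1 (rho ^ (j - r) * s ^ (n - j))) (K * X ^ 2 * t' ^ (2 * n) * th ^ (n - j)))) →
      ∀ n m, n ≤ m → T n m ≤ C * kap ^ (m - n) := by
  obtain ⟨b, hb, hb', hβ1⟩ := cloT_exp hs hth
  set S : ℝ≥0∞ := max 1 s with hS
  set β : ℝ≥0∞ := S ^ b * th ^ (1 / 4 : ℝ) with hβ
  set r0 : ℝ≥0∞ := rho ^ b with hr0
  have hr1 : r0 < 1 := ENNReal.rpow_lt_one hrho hb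
  obtain ⟨D, hD, hsum⟩ := clo_sum hr1 hβ1
  set C1 : ℝ≥0∞ := K * (1 + K ^ (1 / 4 : ℝ) * D) with hC1
  have hC1t : C1 ≠ ⊤ := ENNReal.mul_ne_top hK (ENNReal.add_ne_top.2 ⟨ENNReal.one_ne_top,
    ENNReal.mul_ne_top (ENNReal.rpow_ne_top_of_nonneg (by norm_num) hK) hD⟩)
  set C2 : ℝ≥0∞ := max 1 C1 with hC2
  have hC2t : C2 ≠ ⊤ := (max_lt ENNReal.one_lt_top hC1t.lt_top).ne
  have hC21 : 1 ≤ C2 := le_max_left _ _
  refine ⟨C2 * C2, ENNReal.mul_ne_top hC2t hC2t, ?_⟩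
  intro kap T H0 H1
  -- one turn
  have step : ∀ X t' : ℝ≥0∞, 1 ≤ X → X ≠ ⊤ → 1 < t' → t' ≤ t →
      (∀ n m, n ≤ m → T n m ≤ X * t' ^ n * kap ^ (m - n)) →
      ∀ n m, n ≤ m → T n m ≤ C2 * X ^ (1 / 2 : ℝ) * (t' ^ (1 / 2 : ℝ)) ^ n * kap ^ (m - n) := by
    intro X t' hX hXt ht1 ht2 hT n m hnm
    refine (H1 X t' hX hXt ht1 ht2 hT n m hnm).trans ?_
    set P : ℝ≥0∞ := X ^ (1 / 2 : ℝ) * (t' ^ (1 / 2 : ℝ)) ^ n with hP
    have hP1 : 1 ≤ P := by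
      calc (1 : ℝ≥0∞) = 1 * 1 := (one_mul 1).symm
        _ ≤ P := mul_le_mul' (ENNReal.one_le_rpow hX (by norm_num))
            (one_le_pow_of_one_le' (ENNReal.one_le_rpow ht1.le (by norm_num)) n)
    have hterm : ∀ r ∈ range (n + 1), ∀ j ∈ Icc r n,
        min (min 1 (rho ^ (j - r) * s ^ (n - j))) (K * X ^ 2 * t' ^ (2 * n) * th ^ (n - j)) ≤
          K ^ (1 / 4 : ℝ) * P * (r0 ^ (j - r) * β ^ (n - j)) := by
      intro r hr j hj
      refine (cloT_min hb.le hb' _ _).trans ?_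
      have e3 : (rho ^ (j - r) * s ^ (n - j)) ^ b ≤ r0 ^ (j - r) * (S ^ b) ^ (n - j) := by
        rw [ENNReal.mul_rpow_of_nonneg _ _ hb.le, clo_pow, clo_pow]
        gcongr
        exact le_max_right _ _
      have e4 : (K * X ^ 2 * t' ^ (2 * n) * th ^ (n - j)) ^ (1 / 4 : ℝ) =
          K ^ (1 / 4 : ℝ) * X ^ (1 / 2 : ℝ) * (t' ^ (1 / 2 : ℝ)) ^ n * (th ^ (1 / 4 : ℝ)) ^ (n - j) := by
        rw [ENNReal.mul_rpow_of_nonneg _ _ (by norm_num), ENNReal.mul_rpow_of_nonneg _ _ (by norm_num),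
          ENNReal.mul_rpow_of_nonneg _ _ (by norm_num), clo_pow th]
        congr 2
        · congr 1
          rw [← ENNReal.rpow_natCast, ← ENNReal.rpow_mul]
          norm_num
        · rw [pow_mul, clo_pow]
          congr 1
          rw [← ENNReal.rpow_natCast, ← ENNReal.rpow_mul]
          norm_num
      rw [e4]
      calc (rho ^ (j - r) * s ^ (n - j)) ^ b *
            (K ^ (1 / 4 : ℝ) * X ^ (1 / 2 : ℝ) * (t' ^ (1 / 2 : ℝ)) ^ n * (th ^ (1 / 4 : ℝ)) ^ (n - j)) ≤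
            (r0 ^ (j - r) * (S ^ b) ^ (n - j)) *
              (K ^ (1 / 4 : ℝ) * X ^ (1 / 2 : ℝ) * (t' ^ (1 / 2 : ℝ)) ^ n * (th ^ (1 / 4 : ℝ)) ^ (n - j)) :=
            mul_le_mul' e3 le_rfl
        _ = K ^ (1 / 4 : ℝ) * (X ^ (1 / 2 : ℝ) * (t' ^ (1 / 2 : ℝ)) ^ n) *
              (r0 ^ (j - r) * ((S ^ b) ^ (n - j) * (th ^ (1 / 4 : ℝ)) ^ (n - j))) := by ring
        _ = K ^ (1 / 4 : ℝ) * P * (r0 ^ (j - r) * β ^ (n - j)) := by rw [← mul_pow]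
    have hdouble : ∑ r ∈ range (n + 1), ∑ j ∈ Icc r n, r0 ^ (j - r) * β ^ (n - j) ≤ D := by
      calc ∑ r ∈ range (n + 1), ∑ j ∈ Icc r n, r0 ^ (j - r) * β ^ (n - j) ≤
            ∑ r ∈ range (n + 1), ∑ j ∈ range (n + 1), r0 ^ (j - r) * β ^ (n - j) := by
            refine Finset.sum_le_sum fun r _ => Finset.sum_le_sum_of_subset ?_
            intro j hj
            rw [mem_Icc] at hj
            rw [mem_range]
            omega
        _ = ∑ j ∈ range (n + 1), ∑ r ∈ range (n + 1), r0 ^ (j - r) * β ^ (n - j) := Finset.sum_comm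
        _ ≤ D := hsum n
    calc K * kap ^ (m - n) * (1 + ∑ r ∈ Finset.range (n + 1), ∑ j ∈ Finset.Icc r n,
          min (min 1 (rho ^ (j - r) * s ^ (n - j))) (K * X ^ 2 * t' ^ (2 * n) * th ^ (n - j))) ≤
          K * kap ^ (m - n) * (P + K ^ (1 / 4 : ℝ) * P * D) := by
          refine mul_le_mul' le_rfl (add_le_add hP1 ?_)
          refine (Finset.sum_le_sum fun r hr => Finset.sum_le_sum fun j hj => hterm r hr j hj).trans ?_
          simp only [← Finset.mul_sum]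
          exact mul_le_mul' le_rfl hdouble
      _ = C1 * P * kap ^ (m - n) := by rw [hC1]; ring
      _ ≤ C2 * P * kap ^ (m - n) := by gcongr; exact le_max_right _ _
      _ = C2 * X ^ (1 / 2 : ℝ) * (t' ^ (1 / 2 : ℝ)) ^ n * kap ^ (m - n) := by rw [hP]; ring
  -- the weight of the start
  set t₀ : ℝ≥0∞ := min t 2 with ht₀
  have ht₀1 : 1 < t₀ := lt_min ht (by norm_num)
  have ht₀t : t₀ ≠ ⊤ := ne_top_of_le_ne_top (by norm_num) (min_le_right _ _)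
  obtain ⟨Z1, hZ11, hZ1t, hZ1⟩ := clo_ap ht₀1
  set Z : ℝ≥0∞ := max 1 (K * Z1) with hZ
  have hZ1' : 1 ≤ Z := le_max_left _ _
  have hZt : Z ≠ ⊤ := (max_lt ENNReal.one_lt_top (ENNReal.mul_lt_top hK.lt_top hZ1t.lt_top)).ne
  have it : ∀ k : ℕ, ∀ n m, n ≤ m →
      T n m ≤ C2 * C2 * Z ^ ((1 / 2 : ℝ) ^ k) * (t₀ ^ ((1 / 2 : ℝ) ^ k)) ^ n * kap ^ (m - n) := by
    intro k
    induction k with
    | zero =>
      intro n m hnm
      rw [pow_zero, ENNReal.rpow_one, ENNReal.rpow_one]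
      calc T n m ≤ K * (n + 1) * kap ^ (m - n) := H0 n m hnm
        _ ≤ K * (Z1 * t₀ ^ n) * kap ^ (m - n) := by gcongr; exact hZ1 n
        _ = 1 * 1 * (K * Z1) * t₀ ^ n * kap ^ (m - n) := by ring
        _ ≤ C2 * C2 * Z * t₀ ^ n * kap ^ (m - n) := by
            gcongr
            exact le_max_right _ _
    | succ k ih =>
      intro n m hnm
      have hpow1 : 1 ≤ Z ^ ((1 / 2 : ℝ) ^ k) := ENNReal.one_le_rpow hZ1' (by positivity)
      have hX1 : 1 ≤ C2 * C2 * Z ^ ((1 / 2 : ℝ) ^ k) := by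
        calc (1 : ℝ≥0∞) = 1 * 1 * 1 := by ring
          _ ≤ _ := by gcongr
      have hXt : C2 * C2 * Z ^ ((1 / 2 : ℝ) ^ k) ≠ ⊤ :=
        ENNReal.mul_ne_top (ENNReal.mul_ne_top hC2t hC2t) (ENNReal.rpow_ne_top_of_nonneg (by positivity) hZt)
      have ht1 : 1 < t₀ ^ ((1 / 2 : ℝ) ^ k) := ENNReal.one_lt_rpow ht₀1 (by positivity)
      have ht2 : t₀ ^ ((1 / 2 : ℝ) ^ k) ≤ t := by
        calc t₀ ^ ((1 / 2 : ℝ) ^ k) ≤ t₀ ^ (1 : ℝ) :=
              ENNReal.rpow_le_rpow_of_exponent_le ht₀1.le (pow_le_one₀ (by norm_num) (by norm_num))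
          _ = t₀ := ENNReal.rpow_one _
          _ ≤ t := min_le_left _ _
      refine (step _ _ hX1 hXt ht1 ht2 ih n m hnm).trans (le_of_eq ?_)
      rw [clo2_half]
      congr 2
      rw [mul_assoc C2 C2]
      rw [mul_assoc C2 C2]
      congr 1
      rw [ENNReal.mul_rpow_of_nonneg _ _ (by norm_num), ENNReal.mul_rpow_of_nonneg _ _ (by norm_num),
        ← ENNReal.rpow_mul, ← mul_assoc, ← ENNReal.rpow_add_of_nonneg _ _ (by norm_num) (by norm_num)]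
      norm_num [pow_succ]
  intro n m hnm
  rcases eq_or_ne (kap ^ (m - n)) ⊤ with hk | hk
  · rw [hk, ENNReal.mul_top (by
      refine (lt_of_lt_of_le one_pos ?_).ne'
      calc (1 : ℝ≥0∞) = 1 * 1 := (one_mul 1).symm
        _ ≤ C2 * C2 := mul_le_mul' hC21 hC21)]
    exact le_top
  have hlim : Tendsto (fun k : ℕ => C2 * C2 * Z ^ ((1 / 2 : ℝ) ^ k) * (t₀ ^ ((1 / 2 : ℝ) ^ k)) ^ n *
      kap ^ (m - n)) atTop (𝓝 (C2 * C2 * 1 * 1 * kap ^ (m - n))) := by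
    have h5 := clo_lim hZ1' hZt
    have h6 := ENNReal.Tendsto.const_mul (a := C2 * C2) h5 (Or.inl one_ne_zero)
    have h7 : Tendsto (fun k : ℕ => (t₀ ^ ((1 / 2 : ℝ) ^ k)) ^ n) atTop (𝓝 1) := by
      have := ENNReal.Tendsto.pow (n := n) (clo_lim ht₀1.le ht₀t)
      rwa [one_pow] at this
    have hCC : C2 * C2 * 1 ≠ ⊤ := by
      rw [mul_one]; exact ENNReal.mul_ne_top hC2t hC2t
    have h8 := ENNReal.Tendsto.mul h6 (Or.inr ENNReal.one_ne_top) h7 (Or.inr hCC)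
    exact ENNReal.Tendsto.mul_const (b := kap ^ (m - n)) h8 (Or.inr hk)
  rw [mul_one, mul_one] at hlim
  exact ge_of_tendsto' hlim fun k => it k n m hnm

end Pool.Agent.HEP
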