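import Pool.Agent.PLY.T2.Defs

/-!
Project PLY, folder T2 (two-sided part), module H0: THE TRIVIAL BOUND of `tt` (no avoidance of the giant block is used).

`tq σ n r Q` = the sum `tt` with an arbitrary predicate `Q s c` in the place of `2 ^ m ≤ ht c`. The free leg `l` (stopped at its first renewal `≥ 2 ^ n`) is cut at its
first renewal `≥ h s + d σ`; the first part and `s` are a pair `gp` in first passage (mass at most `TA r`), the rest of `l` has mass `1`.
-/

namespace Pool.Agent.HEP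

open scoped ENNReal
open Finset

namespace Alph

variable {A : Alph}

theorem FR_iff_FP {i : ℕ} {l : List A.B} : A.FR i l ↔ A.FP (i + 1) l := by
  constructor
  · rintro ⟨P, c, rfl, h1, h2⟩
    rw [A.FP_snoc]
    omega
  · intro h
    rcases List.eq_nil_or_concat' l with rfl | ⟨P, c, rfl⟩
    · exact absurd (A.FP_nil.1 h) (Nat.succ_ne_zero i)
    · rw [A.FP_snoc] at h
      exact ⟨P, c, rfl, by omega, by omega⟩

theorem rg_eq {n : ℕ} (l : List A.B) : A.rg (2 ^ n - 1) l = ind (A.FP (2 ^ n) l) * A.w l := by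
  unfold rg
  have h : 2 ^ n - 1 + 1 = 2 ^ n := Nat.sub_add_cancel Nat.one_le_two_pow
  rw [ind_congr FR_iff_FP, h]

end Alph

namespace Sys

variable {S : Sys}

/-- The sum `tt` with an arbitrary predicate of the near part and the giant. -/
noncomputable def tq (S : Sys) (σ : Bool) (n r : ℕ) (Q : List S.B → S.B → Prop) : ℝ≥0∞ :=
  ∑' l, ∑' s, ∑' c, ind (S.av σ l (s ++ [c]) ∧ (∀ s' u, s = s' ++ u → S.os σ 1 l s') ∧ Nat.size (S.h s) = r ∧
    Q s c) * (S.rg (2 ^ n - 1) l * (S.w s * S.wt c))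

theorem tt_eq_tq (σ : Bool) (n r m : ℕ) : S.tt σ n r m = S.tq σ n r fun _ c => 2 ^ m ≤ S.ht c := rfl

/-- The first part of the free leg and the near part are a pair `gp` in first passage. -/
theorem tq_gp {K : ℕ} (hG : S.Gyp K) {σ : Bool} {n r : ℕ} (hr : r ≤ n) {l s : List S.B} {c : S.B}
    (hl : S.FP (2 ^ n) l) (h1 : S.av σ l (s ++ [c])) (h2 : ∀ s' u, s = s' ++ u → S.os σ 1 l s')
    (h3 : Nat.size (S.h s) = r) : S.gp σ (S.pre (S.h s + d σ) l) s ∧ S.h s + d σ ≤ 2 ^ n := by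
  have hs : S.h s < 2 ^ n := Nat.size_le.1 (h3 ▸ hr)
  have hk : S.h s + d σ ≤ 2 ^ n := by
    have := d_le σ
    omega
  obtain ⟨h4, u, hu⟩ := S.pre_spec (k := S.h s + d σ) (X := l) (hk.trans hl.1)
  set l0 := S.pre (S.h s + d σ) l with hl0
  have h5 : S.av σ (l0 ++ u) (s ++ [c]) := hu ▸ h1
  have h6 : S.h s ≤ S.h l0 - d σ := by
    have := h4.1
    omega
  refine ⟨⟨S.av_pre h5, h6, fun s' v e => ?_⟩, hk⟩
  have h7 : S.h s' ≤ S.h s := by
    rw [e, S.h_append]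
    omega
  have h8 : S.good σ 1 (l0 ++ u) s' := by
    refine ⟨?_, ?_, ?_⟩
    · rw [e, List.append_assoc] at h5
      exact S.av_pre (l := l0 ++ u) (l' := []) (by rwa [List.append_nil])
    · rw [S.h_append]
      omega
    · have := h2 s' v e
      rwa [hu] at this
  exact (hG.res σ 1 l0 u s' h8 (h7.trans h6)).2.2

/-- The trivial bound. -/
theorem tq_le {K : ℕ} (hG : S.Gyp K) (σ : Bool) {n r : ℕ} (hr : r ≤ n) (Q : List S.B → S.B → Prop) (Q' : S.B → Prop)
    (hQ : ∀ s c, Nat.size (S.h s) = r → Q s c → Q' c) : S.tq σ n r Q ≤ S.TA r * ∑' c, ind (Q' c) * S.wt c := by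
  have key : ∀ s : List S.B, ∀ c : S.B,
      ∑' l, ind (S.av σ l (s ++ [c]) ∧ (∀ s' u, s = s' ++ u → S.os σ 1 l s') ∧ Nat.size (S.h s) = r ∧ Q s c) *
        (S.rg (2 ^ n - 1) l * (S.w s * S.wt c)) ≤
      (∑' l, ind (S.gp σ l s ∧ S.FP (S.h s + d σ) l ∧ Nat.size (S.h s) = r) * (S.w l * S.w s)) *
        (ind (Q' c) * S.wt c) := by
    intro s c
    by_cases h0 : Nat.size (S.h s) = r ∧ Q s c
    swap
    · refine le_trans (le_of_eq ?_) zero_le
      rw [ENNReal.tsum_eq_zero]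
      intro l
      rw [ind_false fun h => h0 ⟨h.2.2.1, h.2.2.2⟩, zero_mul]
    obtain ⟨h3, h4⟩ := h0
    have hs : S.h s < 2 ^ n := Nat.size_le.1 (h3 ▸ hr)
    have hk : S.h s + d σ ≤ 2 ^ n := by
      have := d_le σ
      omega
    have h5 : ∀ l, ind (S.av σ l (s ++ [c]) ∧ (∀ s' u, s = s' ++ u → S.os σ 1 l s') ∧ Nat.size (S.h s) = r ∧ Q s c) *
        (S.rg (2 ^ n - 1) l * (S.w s * S.wt c)) ≤
        (ind (S.FP (2 ^ n) l) * (ind (S.gp σ (S.pre (S.h s + d σ) l) s) * S.w l)) * (S.w s * (ind (Q' c) * S.wt c)) := by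
      intro l
      rw [Alph.rg_eq, ind_true (hQ s c h3 h4), one_mul]
      by_cases hl : S.FP (2 ^ n) l
      · rw [ind_true hl, one_mul, one_mul, mul_assoc]
        refine mul_le_mul' (ind_mono fun h => ?_) le_rfl
        exact (tq_gp hG hr hl h.1 h.2.1 h.2.2.1).1
      · rw [ind_false hl, zero_mul, zero_mul, zero_mul, mul_zero, zero_mul]
    refine (ENNReal.tsum_le_tsum h5).trans (le_of_eq ?_)
    rw [ENNReal.tsum_mul_right, S.tsum_pre hk (fun l => ind (S.gp σ l s)), ← mul_assoc]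
    congr 1
    rw [← ENNReal.tsum_mul_right]
    refine tsum_congr fun l => ?_
    rw [ind_and, ind_and, ind_true h3, mul_one]
    ring
  unfold tq
  calc _ = ∑' s, ∑' c, ∑' l, ind (S.av σ l (s ++ [c]) ∧ (∀ s' u, s = s' ++ u → S.os σ 1 l s') ∧
        Nat.size (S.h s) = r ∧ Q s c) * (S.rg (2 ^ n - 1) l * (S.w s * S.wt c)) := by
        rw [ENNReal.tsum_comm]
        exact tsum_congr fun s => ENNReal.tsum_comm
    _ ≤ ∑' s, ∑' c, (∑' l, ind (S.gp σ l s ∧ S.FP (S.h s + d σ) l ∧ Nat.size (S.h s) = r) * (S.w l * S.w s)) *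
        (ind (Q' c) * S.wt c) := ENNReal.tsum_le_tsum fun s => ENNReal.tsum_le_tsum fun c => key s c
    _ = (∑' l, ∑' s, ind (S.gp σ l s ∧ S.FP (S.h s + d σ) l ∧ Nat.size (S.h s) = r) * (S.w l * S.w s)) *
        ∑' c, ind (Q' c) * S.wt c := by
        rw [ENNReal.tsum_comm (f := fun l s => ind (S.gp σ l s ∧ S.FP (S.h s + d σ) l ∧ Nat.size (S.h s) = r) *
          (S.w l * S.w s)), ← ENNReal.tsum_mul_right]
        exact tsum_congr fun s => by rw [ENNReal.tsum_mul_left]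
    _ ≤ _ := by
        refine mul_le_mul' ?_ le_rfl
        unfold TA
        exact single_le_sum (f := fun σ : Bool => ∑' l, ∑' s, ind (S.gp σ l s ∧ S.FP (S.h s + d σ) l ∧
          Nat.size (S.h s) = r) * (S.w l * S.w s)) (fun _ _ => zero_le) (mem_univ σ)

theorem tt_le {K : ℕ} (hG : S.Gyp K) (σ : Bool) {n r : ℕ} (hr : r ≤ n) (m : ℕ) :
    S.tt σ n r m ≤ S.TA r * ∑' c, ind (2 ^ m ≤ S.ht c) * S.wt c :=
  tq_le hG σ hr _ _ fun _ _ _ h => h

end Sys

end Pool.Agent.HEP
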