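import Pool.Agent.PLY.T2.H0
import Pool.Agent.PLY.V.Mz

/-!
Project PLY, folder T2 (two-sided part), module H1: THE THREE BOUNDS PER CLASS AND ZONE (hypothesis H1 of the closing lemma `clo4`).

`A j` = the leg `s ++ [c]` with the giant returns from a column `≥ 2 ^ n - 1` to a column `≤ 2 ^ j`. Cells: `¬ A (n - 1)`; `¬ A j ∧ A (j + 1)` for `g ≤ j < n - 1`; `A g`.
`¬ A j` implies one-sidedness at the renewals of the free leg below `2 ^ j` (`Rts.os`), so `mz_le` applies; `A j` with `h s < 2 ^ g ≤ 2 ^ j` implies that the block `c`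
alone returns from a column `≥ 2 ^ (n - 1)` to a column `≤ 2 ^ j` (`Rts.shf`, `Rts.mono`); and there is always the trivial bound of module H0.
-/

namespace Pool.Agent.HEP

open scoped ENNReal
open Finset

namespace Sys

variable {S : Sys}

theorem tq_mono {σ : Bool} {n r : ℕ} {Q Q' : List S.B → S.B → Prop}
    (h : ∀ s c, Nat.size (S.h s) = r → Q s c → Q' s c) : S.tq σ n r Q ≤ S.tq σ n r Q' :=
  ENNReal.tsum_le_tsum fun _ => ENNReal.tsum_le_tsum fun s => ENNReal.tsum_le_tsum fun c =>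
    mul_le_mul' (ind_mono fun e => ⟨e.1, e.2.1, e.2.2.1, h s c e.2.2.1 e.2.2.2⟩) le_rfl

theorem tq_add (σ : Bool) (n r : ℕ) (Q Q' : List S.B → S.B → Prop) :
    S.tq σ n r (fun s c => Q s c ∨ Q' s c) ≤ S.tq σ n r Q + S.tq σ n r Q' := by
  unfold tq
  rw [← ENNReal.tsum_add]
  refine ENNReal.tsum_le_tsum fun l => ?_
  rw [← ENNReal.tsum_add]
  refine ENNReal.tsum_le_tsum fun s => ?_
  rw [← ENNReal.tsum_add]
  refine ENNReal.tsum_le_tsum fun c => ?_
  rw [← add_mul]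
  refine mul_le_mul' ((ind_mono ?_).trans (ind_or_le _ _)) le_rfl
  rintro ⟨h1, h2, h3, h4 | h4⟩
  · exact Or.inl ⟨h1, h2, h3, h4⟩
  · exact Or.inr ⟨h1, h2, h3, h4⟩

/-- Decomposition into cells. -/
theorem tq_cells (σ : Bool) (n r : ℕ) (Q : List S.B → S.B → Prop) (A : ℕ → List S.B → S.B → Prop) (a p : ℕ) :
    S.tq σ n r Q ≤ S.tq σ n r (fun s c => Q s c ∧ ¬ A (a + p) s c) +
      ∑ j ∈ range p, S.tq σ n r (fun s c => Q s c ∧ ¬ A (a + j) s c ∧ A (a + j + 1) s c) +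
      S.tq σ n r (fun s c => Q s c ∧ A a s c) := by
  induction p with
  | zero =>
    rw [sum_range_zero, add_zero]
    refine le_trans (tq_mono fun s c _ h => ?_) (tq_add σ n r _ _)
    by_cases hA : A (a + 0) s c
    · exact Or.inr ⟨h, hA⟩
    · exact Or.inl ⟨h, hA⟩
  | succ p ih =>
    have h1 : S.tq σ n r (fun s c => Q s c ∧ ¬ A (a + p) s c) ≤
        S.tq σ n r (fun s c => Q s c ∧ ¬ A (a + (p + 1)) s c) +
        S.tq σ n r (fun s c => Q s c ∧ ¬ A (a + p) s c ∧ A (a + p + 1) s c) := by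
      refine le_trans (tq_mono fun s c _ h => ?_) (tq_add σ n r _ _)
      by_cases hA : A (a + (p + 1)) s c
      · exact Or.inr ⟨h.1, h.2, hA⟩
      · exact Or.inl ⟨h.1, hA⟩
    rw [sum_range_succ]
    calc _ ≤ _ := ih
      _ ≤ (S.tq σ n r (fun s c => Q s c ∧ ¬ A (a + (p + 1)) s c) +
        S.tq σ n r (fun s c => Q s c ∧ ¬ A (a + p) s c ∧ A (a + p + 1) s c)) +
        ∑ j ∈ range p, S.tq σ n r (fun s c => Q s c ∧ ¬ A (a + j) s c ∧ A (a + j + 1) s c) +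
        S.tq σ n r (fun s c => Q s c ∧ A a s c) := add_le_add (add_le_add h1 le_rfl) le_rfl
      _ = _ := by ring

/-- No return: one-sided below `2 ^ j`, so `mz`. -/
theorem tq_os {K : ℕ} (hG : S.Gyp K) (R : S.Rts) (σ : Bool) {n g j m : ℕ} (hg : g ≤ j) (hj : j + 1 ≤ n) (hn : 2 ≤ n)
    (hm : n ≤ m) {Q : List S.B → S.B → Prop}
    (hQ : ∀ s c, Nat.size (S.h s) = g → Q s c → 2 ^ m ≤ S.ht c ∧ ¬ R.rt (!σ) (2 ^ n - 1) (2 ^ j) (s ++ [c])) :
    S.tq σ n g Q ≤ S.mz σ (2 ^ n - 1) g j m := by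
  refine ENNReal.tsum_le_tsum fun l => ENNReal.tsum_le_tsum fun s => ENNReal.tsum_le_tsum fun c => ?_
  rw [Alph.rg_eq]
  by_cases hl : S.FP (2 ^ n) l
  swap
  · rw [ind_false hl, zero_mul, zero_mul, mul_zero]
    exact zero_le
  refine mul_le_mul' (ind_mono ?_) le_rfl
  rintro ⟨h1, h2, h3, h4⟩
  obtain ⟨h5, h6⟩ := hQ s c h3 h4
  refine ⟨(tq_gp hG (by omega) hl h1 h2 h3).1, h3, h5, h1, ?_⟩
  intro l1 u e hl1
  have e1 : 2 ^ j ≤ 2 ^ (n - 1) := Nat.pow_le_pow_right (by norm_num) (by omega)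
  have e2 : 2 ^ n = 2 * 2 ^ (n - 1) := by
    rw [← pow_succ']
    congr 1
    omega
  have e3 : 2 ≤ 2 ^ (n - 1) := by
    calc 2 = 2 ^ 1 := (pow_one 2).symm
      _ ≤ 2 ^ (n - 1) := Nat.pow_le_pow_right (by norm_num) (by omega)
  have e4 : 2 ^ n ≤ 2 ^ m := Nat.pow_le_pow_right (by norm_num) hm
  have e5 := d_le (!σ)
  refine R.os (!σ) (2 ^ n - 1) (2 ^ j) (s ++ [c]) l1 u (by omega) ?_ h6 ?_ (by omega) ?_
  · rw [e] at h1
    cases σ
    · exact h1
    · exact h1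
  · rw [← e]
    have := hl.1
    omega
  · rw [S.h_append, S.h_cons, S.h_nil]
    omega

/-- A return: the giant alone returns. -/
theorem tq_rt {K : ℕ} (hG : S.Gyp K) (R : S.Rts) (σ : Bool) {n g j m : ℕ} (hg : g ≤ j) (hj : j + 1 ≤ n) (hn : 2 ≤ n)
    {Q : List S.B → S.B → Prop}
    (hQ : ∀ s c, Nat.size (S.h s) = g → Q s c → 2 ^ m ≤ S.ht c ∧ R.rt (!σ) (2 ^ n - 1) (2 ^ j) (s ++ [c])) :
    S.tq σ n g Q ≤ S.TA g * ∑' c, ind (R.rt (!σ) (2 ^ (n - 1)) (2 ^ j) [c]) * S.wt c := by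
  refine tq_le hG σ (by omega) Q _ fun s c h3 h4 => ?_
  obtain ⟨h5, h6⟩ := hQ s c h3 h4
  have e0 : S.h s < 2 ^ g := Nat.size_le.1 h3.le
  have e6 : 2 ^ g ≤ 2 ^ j := Nat.pow_le_pow_right (by norm_num) hg
  have e1 : 2 ^ j ≤ 2 ^ (n - 1) := Nat.pow_le_pow_right (by norm_num) (by omega)
  have e2 : 2 ^ n = 2 * 2 ^ (n - 1) := by
    rw [← pow_succ']
    congr 1
    omega
  have e3 : 2 ≤ 2 ^ (n - 1) := by
    calc 2 = 2 ^ 1 := (pow_one 2).symm
      _ ≤ 2 ^ (n - 1) := Nat.pow_le_pow_right (by norm_num) (by omega)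
  have h7 := (R.shf (!σ) (2 ^ n - 1) (2 ^ j) s [c] (by omega) (by omega)).1 h6
  exact R.mono (!σ) _ _ _ _ _ (by omega) (by omega) h7

/-- The return function of the closing lemma. -/
noncomputable def Yf (R : S.Rts) (n j : ℕ) : ℝ≥0∞ := if j + 6 ≤ n then yb R n j else (S.U (2 ^ n))⁻¹

lemma U_pow_two (hb : Antitone S.b) (j p : ℕ) : S.U (2 ^ (j + p)) ≤ 2 ^ p * S.U (2 ^ j) := by
  induction p with
  | zero => simp
  | succ p ih =>
    calc S.U (2 ^ (j + (p + 1))) = S.U (2 * 2 ^ (j + p)) := by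
          congr 1
          rw [← add_assoc, pow_succ]
          ring
      _ ≤ 2 * S.U (2 ^ (j + p)) := S.U_two hb _
      _ ≤ 2 * (2 ^ p * S.U (2 ^ j)) := mul_le_mul' le_rfl ih
      _ = _ := by rw [pow_succ]; ring

/-- The three bounds. `L` = the constant of the tail of the giants, `C` = the constant of `mz_le`, `B` = the constant of the pairs. -/
theorem tt_H1 {K : ℕ} (hG : S.Gyp K) (R : S.Rts) {B C L ρ₁ ρ₂ : ℝ≥0∞} (h2 : ρ₂ ≤ 1) (h1 : ρ₁ ≤ 1)
    (hTA : ∀ g, S.TA g ≤ B)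
    (hL : ∀ n m, n ≤ m → S.U (2 ^ n) * ∑' c, ind (2 ^ m ≤ S.ht c) * S.wt c ≤ L * ρ₂ ^ (m - n))
    (hmz : ∀ σ i g y k, g ≤ y → y ≤ k → 2 ^ y ≤ i + 1 → S.U (2 ^ y) * S.mz σ i g y k ≤ C * ρ₁ ^ (y - g) * ρ₂ ^ (k - y))
    (σ : Bool) {g n m : ℕ} (hgn : g ≤ n) (hnm : n ≤ m) :
    S.tt σ n g m ≤ 3 * (B * L + B + 2 * C) * ∑ j ∈ range (n + 1),
      min (ρ₂ ^ (m - n) * (S.U (2 ^ n))⁻¹) (min (ρ₁ ^ (j - g) * 2 ^ (n - j) * (S.U (2 ^ n))⁻¹) (Yf R n j)) := by
  set u : ℝ≥0∞ := (S.U (2 ^ n))⁻¹ with hu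
  set D : ℝ≥0∞ := B * L + B + 2 * C with hD
  set F : ℕ → ℝ≥0∞ := fun j => min (ρ₂ ^ (m - n) * u) (min (ρ₁ ^ (j - g) * 2 ^ (n - j) * u) (Yf R n j)) with hF
  have hU0 : ∀ k, S.U k ≠ 0 := S.U_ne_zero
  have hUt : ∀ k, S.U k ≠ ⊤ := S.U_ne_top
  have hinv : ∀ {k : ℕ} {a b : ℝ≥0∞}, S.U k * a ≤ b → a ≤ b * (S.U k)⁻¹ := by
    intro k a b h
    calc a = S.U k * a * (S.U k)⁻¹ := by
          rw [mul_comm (S.U k) a, mul_assoc, ENNReal.mul_inv_cancel (hU0 k) (hUt k), mul_one]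
      _ ≤ _ := mul_le_mul' h le_rfl
  -- the trivial bound
  have htriv : ∀ Q : List S.B → S.B → Prop, (∀ s c, Nat.size (S.h s) = g → Q s c → 2 ^ m ≤ S.ht c) →
      S.tq σ n g Q ≤ D * (ρ₂ ^ (m - n) * u) := by
    intro Q hQ
    refine (tq_le hG σ hgn Q _ hQ).trans ?_
    calc S.TA g * ∑' c, ind (2 ^ m ≤ S.ht c) * S.wt c ≤ B * (L * ρ₂ ^ (m - n) * u) :=
          mul_le_mul' (hTA g) (hinv (hL n m hnm))
      _ = B * L * (ρ₂ ^ (m - n) * u) := by ring
      _ ≤ _ := mul_le_mul' (by rw [hD, add_assoc]; exact le_self_add) le_rfl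
  have hp1 : ∀ k, ρ₁ ^ k ≤ 1 := fun k => pow_le_one' h1 k
  have hp2 : ∀ k, ρ₂ ^ k ≤ 1 := fun k => pow_le_one' h2 k
  have hsum : ∀ j, j ≤ n → F j ≤ ∑ j ∈ range (n + 1), F j := fun j hj =>
    single_le_sum (f := F) (fun _ _ => zero_le) (mem_range.2 (by omega))
  rw [tt_eq_tq]
  rcases Nat.lt_or_ge n (g + 2) with hg | hg
  · -- the top classes
    have e1 : F g = ρ₂ ^ (m - n) * u := by
      rw [hF]
      dsimp only
      rw [Nat.sub_self, pow_zero, one_mul, Yf, if_neg (by omega)]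
      refine min_eq_left (le_min ?_ ?_)
      · exact mul_le_mul' ((hp2 _).trans (one_le_pow_of_one_le' (by norm_num) _)) le_rfl
      · exact (mul_le_mul' (hp2 _) le_rfl).trans (one_mul _).le
    calc _ ≤ D * (ρ₂ ^ (m - n) * u) := htriv _ fun _ _ _ h => h
      _ = D * F g := by rw [e1]
      _ ≤ D * ∑ j ∈ range (n + 1), F j := mul_le_mul' le_rfl (hsum g hgn)
      _ ≤ _ := by
          refine mul_le_mul' ?_ le_rfl
          calc D = 1 * D := (one_mul _).symm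
            _ ≤ 3 * D := mul_le_mul' (by norm_num) le_rfl
  have hn2 : 2 ≤ n := by omega
  obtain ⟨p, hp⟩ : ∃ p, n = g + p + 1 := ⟨n - g - 1, by omega⟩
  have hcell := tq_cells (S := S) σ n g (fun _ c => 2 ^ m ≤ S.ht c)
    (fun j s c => R.rt (!σ) (2 ^ n - 1) (2 ^ j) (s ++ [c])) g p
  -- no return below the level `2 ^ j`
  have hos : ∀ j, g ≤ j → j + 1 ≤ n → ∀ Q : List S.B → S.B → Prop, (∀ s c, Nat.size (S.h s) = g → Q s c → 2 ^ m ≤ S.ht c ∧
      ¬ R.rt (!σ) (2 ^ n - 1) (2 ^ j) (s ++ [c])) →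
      S.tq σ n g Q ≤ C * (ρ₁ ^ (j - g) * 2 ^ (n - j) * ρ₂ ^ (m - n) * u) := by
    intro j hgj hjn Q hQ
    refine (tq_os hG R σ hgj hjn hn2 hnm hQ).trans ?_
    have a1 := hinv (hmz σ (2 ^ n - 1) g j m hgj (by omega) (by
      rw [Nat.sub_add_cancel Nat.one_le_two_pow]
      exact Nat.pow_le_pow_right (by norm_num) (by omega)))
    have a2 : (S.U (2 ^ j))⁻¹ ≤ 2 ^ (n - j) * u := by
      have b1 := U_pow_two hG.anti j (n - j)
      rw [Nat.add_sub_cancel' (by omega : j ≤ n)] at b1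
      refine hinv ?_
      rw [← div_eq_mul_inv, ENNReal.div_le_iff (hU0 _) (hUt _)]
      exact b1
    calc S.mz σ (2 ^ n - 1) g j m ≤ C * ρ₁ ^ (j - g) * ρ₂ ^ (m - j) * (S.U (2 ^ j))⁻¹ := a1
      _ ≤ C * ρ₁ ^ (j - g) * ρ₂ ^ (m - n) * (2 ^ (n - j) * u) :=
          mul_le_mul' (mul_le_mul' le_rfl (pow_le_pow_right_of_le_one' h2 (by omega))) a2
      _ = _ := by ring
  -- first part: no return below `2 ^ (n - 1)`
  have hP1 : S.tq σ n g (fun s c => 2 ^ m ≤ S.ht c ∧ ¬ R.rt (!σ) (2 ^ n - 1) (2 ^ (g + p)) (s ++ [c])) ≤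
      D * ∑ j ∈ range (n + 1), F j := by
    refine (hos (g + p) (by omega) (by omega) _ fun _ _ _ h => h).trans ?_
    have e1 : ρ₁ ^ (g + p - g) * ρ₂ ^ (m - n) * u ≤ F (g + p) := by
      rw [hF]
      dsimp only
      rw [Yf, if_neg (by omega)]
      refine le_min ?_ (le_min ?_ ?_)
      · exact mul_le_mul' ((mul_le_mul' (hp1 _) le_rfl).trans (one_mul _).le) le_rfl
      · refine mul_le_mul' (mul_le_mul' le_rfl ((hp2 _).trans (one_le_pow_of_one_le' (by norm_num) _))) le_rfl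
      · exact (mul_le_mul' (mul_le_mul' (hp1 _) (hp2 _)) le_rfl).trans (by rw [one_mul, one_mul])
    have e2 : n - (g + p) = 1 := by omega
    calc C * (ρ₁ ^ (g + p - g) * 2 ^ (n - (g + p)) * ρ₂ ^ (m - n) * u)
        = 2 * C * (ρ₁ ^ (g + p - g) * ρ₂ ^ (m - n) * u) := by rw [e2]; ring
      _ ≤ D * F (g + p) := mul_le_mul' (by rw [hD]; exact le_add_self) e1
      _ ≤ _ := mul_le_mul' le_rfl (hsum _ (by omega))
  -- returns, general bound by the term `j`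
  have hgen : ∀ j, g ≤ j → j + 1 ≤ n → ∀ Q : List S.B → S.B → Prop, (∀ s c, Nat.size (S.h s) = g → Q s c →
      2 ^ m ≤ S.ht c) → (j + 2 ≤ n → S.tq σ n g Q ≤ B * yb R n j) →
      S.tq σ n g Q ≤ D * (ρ₁ ^ (j - g) * 2 ^ (n - j) * u) → S.tq σ n g Q ≤ D * F j := by
    intro j hgj hjn Q hQ hR hO
    have e1 := htriv Q hQ
    have e3 : S.tq σ n g Q ≤ D * Yf R n j := by
      unfold Yf
      split_ifs with h6
      · exact (hR (by omega)).trans (mul_le_mul' (by rw [hD]; exact le_self_add.trans' le_add_self) le_rfl)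
      · exact e1.trans (mul_le_mul' le_rfl ((mul_le_mul' (hp2 _) le_rfl).trans (one_mul _).le))
    rw [hF]
    dsimp only
    rcases le_total (ρ₂ ^ (m - n) * u) (min (ρ₁ ^ (j - g) * 2 ^ (n - j) * u) (Yf R n j)) with h | h
    · rw [min_eq_left h]; exact e1
    · rw [min_eq_right h]
      rcases le_total (ρ₁ ^ (j - g) * 2 ^ (n - j) * u) (Yf R n j) with h' | h'
      · rw [min_eq_left h']; exact hO
      · rw [min_eq_right h']; exact e3
  -- last part: a return below `2 ^ g`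
  have hP3 : S.tq σ n g (fun s c => 2 ^ m ≤ S.ht c ∧ R.rt (!σ) (2 ^ n - 1) (2 ^ g) (s ++ [c])) ≤
      D * ∑ j ∈ range (n + 1), F j := by
    refine le_trans (hgen g le_rfl (by omega) _ (fun _ _ _ h => h.1) (fun _ => ?_) ?_)
      (mul_le_mul' le_rfl (hsum g (by omega)))
    · refine (tq_rt hG R σ le_rfl (by omega) hn2 (m := m) fun _ _ _ h => h).trans (mul_le_mul' (hTA g) ?_)
      unfold yb
      refine le_trans ?_ (single_le_sum (f := fun τ : Bool => ∑' c, ind (R.rt τ (2 ^ (n - 1)) (2 ^ (g + 1)) [c]) * S.wt c)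
        (fun _ _ => zero_le) (mem_univ (!σ)))
      exact ENNReal.tsum_le_tsum fun c => mul_le_mul' (ind_mono fun h => R.mono _ _ _ _ _ _ le_rfl
        (Nat.pow_le_pow_right (by norm_num) (by omega)) h) le_rfl
    · refine (htriv _ fun _ _ _ h => h.1).trans (mul_le_mul' le_rfl ?_)
      rw [Nat.sub_self, pow_zero, one_mul]
      exact mul_le_mul' ((hp2 _).trans (one_le_pow_of_one_le' (by norm_num) _)) le_rfl
  -- middle part
  have hP2 : ∑ j ∈ range p, S.tq σ n g (fun s c => 2 ^ m ≤ S.ht c ∧ ¬ R.rt (!σ) (2 ^ n - 1) (2 ^ (g + j)) (s ++ [c]) ∧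
      R.rt (!σ) (2 ^ n - 1) (2 ^ (g + j + 1)) (s ++ [c])) ≤ D * ∑ j ∈ range (n + 1), F j := by
    calc _ ≤ ∑ j ∈ range p, D * F (g + j) := by
          refine sum_le_sum fun j hj => ?_
          rw [mem_range] at hj
          refine hgen (g + j) (by omega) (by omega) _ (fun _ _ _ h => h.1) (fun _ => ?_) ?_
          · refine (tq_rt hG R σ (j := g + j + 1) (by omega) (by omega) hn2 (m := m)
              fun _ _ _ h => ⟨h.1, h.2.2⟩).trans (mul_le_mul' (hTA g) ?_)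
            unfold yb
            exact single_le_sum (f := fun τ : Bool => ∑' c, ind (R.rt τ (2 ^ (n - 1)) (2 ^ (g + j + 1)) [c]) * S.wt c)
              (fun _ _ => zero_le) (mem_univ (!σ))
          · refine (hos (g + j) (by omega) (by omega) _ fun _ _ _ h => ⟨h.1, h.2.1⟩).trans ?_
            refine mul_le_mul' ?_ (mul_le_mul' ((mul_le_mul' le_rfl (hp2 _)).trans (mul_one _).le) le_rfl)
            rw [hD]
            refine le_trans ?_ le_add_self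
            calc C = 1 * C := (one_mul _).symm
              _ ≤ 2 * C := mul_le_mul' (by norm_num) le_rfl
      _ = D * ∑ j ∈ range p, F (g + j) := by rw [mul_sum]
      _ ≤ _ := by
          refine mul_le_mul' le_rfl ?_
          have e9 : ∑ j ∈ range p, F (g + j) = ∑ j ∈ Ico g (g + p), F j := by
            rw [sum_Ico_eq_sum_range, Nat.add_sub_cancel_left]
          rw [e9]
          refine sum_le_sum_of_subset fun j hj => ?_
          rw [mem_Ico] at hj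
          exact mem_range.2 (by omega)
  refine hcell.trans ((add_le_add (add_le_add hP1 hP2) hP3).trans (le_of_eq ?_))
  ring

end Sys

end Pool.Agent.HEP
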