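import Pool.Agent.PLY.T2.Defs
import Pool.Agent.PLY.R2.Tb

/-!
Project PLY (MP_8c6f77_pr, honeycomb lattice, polynomial bound), THE TWO-SIDED PART: the closing lemma `clo4` in the terms of `tt`, `TB`
(everything multiplied by `U (2 ^ n)`, so no inverses).

`Y n j` = `U (2 ^ n)` times the mass of the returning blocks (units of `1 / U (2 ^ n)`).
-/

namespace Pool.Agent.HEP

open scoped ENNReal
open Finset

namespace Sys

variable {S : Sys}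

/-- The bound `TB` from the sums over the classes. -/
lemma TB_of {κ X t : ℝ≥0∞} (h : ∀ n m, n ≤ m →
    ∑ g ∈ range (n + 1), S.U (2 ^ n) * (S.tt true n g m + S.tt false n g m) ≤ X * t ^ n * κ ^ (m - n)) :
    S.TB κ X t := by
  intro n m hnm
  refine le_trans (le_of_eq ?_) (h n m hnm)
  unfold T2
  rw [Fintype.sum_bool, ← Finset.sum_add_distrib, Finset.mul_sum]

variable (S)

/-- THE CLOSING LEMMA for `tt`. -/
theorem closeT {ρ₁ ρ₂ θ t₀ : ℝ≥0∞} (h₁ : ρ₁ < 1) (h₂ : ρ₂ < 1) (hθ : θ < 1) (ht₀ : 1 < t₀) (ht₀t : t₀ ≠ ⊤) :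
    ∃ ρ : ℝ≥0∞, ρ < 1 ∧ ρ₂ ≤ ρ ∧ ∀ (K : ℝ≥0∞) (Y : ℕ → ℕ → ℝ≥0∞), K ≠ ⊤ →
      (∀ σ g n m, g ≤ n → n ≤ m → S.U (2 ^ n) * S.tt σ n g m ≤ K * ρ₂ ^ (m - n)) →
      (∀ σ g n m, g ≤ n → n ≤ m → S.U (2 ^ n) * S.tt σ n g m ≤ K * ∑ j ∈ range (n + 1),
        min (ρ₂ ^ (m - n)) (min (ρ₁ ^ (j - g) * 2 ^ (n - j)) (Y n j))) →
      (∀ X t : ℝ≥0∞, 1 ≤ X → X ≠ ⊤ → 1 ≤ t → t ≤ t₀ → S.TB (ρ₂ ^ (3 / 4 : ℝ)) X t →
        ∀ n j, j ≤ n → Y n j ≤ K * X ^ 2 * t ^ (2 * n) * θ ^ (n - j)) →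
      ∃ C : ℝ≥0∞, C ≠ ⊤ ∧ ∀ σ g n m, g ≤ n → n ≤ m → S.U (2 ^ n) * S.tt σ n g m ≤ C * ρ ^ (m - g) := by
  obtain ⟨ρ, hρ, hρ2, H⟩ := clo4 h₁ h₂ hθ ht₀ ht₀t
  refine ⟨ρ, hρ, hρ2, fun K Y hK H0 H1 H2 => ?_⟩
  have h2K : K ≤ 2 * K := le_mul_of_one_le_left' (by norm_num)
  have hH := H (2 * K) (fun _ => 1)
    (fun g n m => S.U (2 ^ n) * (S.tt true n g m + S.tt false n g m)) Y
    (ENNReal.mul_ne_top (by norm_num) hK) (fun _ => ENNReal.one_ne_top)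
  simp only [mul_one] at hH
  obtain ⟨C, hC, hM⟩ := hH
    (fun g n m hgn hnm => by
      rw [mul_add]
      calc S.U (2 ^ n) * S.tt true n g m + S.U (2 ^ n) * S.tt false n g m ≤
            K * ρ₂ ^ (m - n) + K * ρ₂ ^ (m - n) := add_le_add (H0 true g n m hgn hnm) (H0 false g n m hgn hnm)
        _ = 2 * K * ρ₂ ^ (m - n) := by ring)
    (fun g n m hgn hnm => by
      rw [mul_add]
      calc S.U (2 ^ n) * S.tt true n g m + S.U (2 ^ n) * S.tt false n g m ≤ _ + _ :=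
            add_le_add (H1 true g n m hgn hnm) (H1 false g n m hgn hnm)
        _ = 2 * K * ∑ j ∈ range (n + 1), min (ρ₂ ^ (m - n)) (min (ρ₁ ^ (j - g) * 2 ^ (n - j)) (Y n j)) := by ring)
    (fun X t hX hXt ht ht' h n j hj =>
      (H2 X t hX hXt ht ht' (TB_of fun n m hnm => h n m hnm) n j hj).trans (by gcongr))
  refine ⟨C, hC, fun σ g n m hgn hnm => ?_⟩
  refine le_trans (mul_le_mul' le_rfl ?_) (hM g n m hgn hnm)
  cases σ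
  · exact le_add_self
  · exact le_self_add

end Sys

end Pool.Agent.HEP
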